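import Pool.Agent.Helper91_SHP.Ner

/-! Row FR2 of the squad SHP (MP_d2d93c_nt): the far case `C^x ≤ B^y`. -/

namespace Pool.Agent.SHP.H91

open Pool.Agent.SHP

/-- `gcd(f² - g², f² + g²) = 1`. -/
theorem cop_AC (f g : ℕ) (hgf : g < f) (hc : Nat.Coprime f g) (hodd : Odd (f + g)) :
    Nat.Coprime (f ^ 2 - g ^ 2) (f ^ 2 + g ^ 2) := by
  have hle : g ^ 2 ≤ f ^ 2 := Nat.pow_le_pow_left hgf.le 2
  obtain ⟨a, ha⟩ : ∃ a, f ^ 2 = g ^ 2 + a := ⟨f ^ 2 - g ^ 2, by omega⟩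
  have hA : f ^ 2 - g ^ 2 = a := by omega
  rw [hA]
  have hcg : Nat.Coprime (f ^ 2) (g ^ 2) := Nat.Coprime.pow 2 2 hc
  have hag : Nat.Coprime a (g ^ 2) := by
    rw [ha] at hcg
    exact (Nat.coprime_add_self_left (m := a) (n := g ^ 2)).1 (by rw [add_comm]; exact hcg)
  have ha2 : Nat.Coprime a 2 := by
    rw [Nat.coprime_comm, Nat.coprime_two_left]
    have h : Odd (f ^ 2 + g ^ 2) := by
      rcases Nat.even_or_odd f with hf | hf <;> rcases Nat.even_or_odd g with hg | hg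
      · exact absurd (hf.add hg) (Nat.not_even_iff_odd.2 hodd)
      · exact (hf.pow_of_ne_zero (by norm_num)).add_odd (hg.pow)
      · exact (hf.pow).add_even (hg.pow_of_ne_zero (by norm_num))
      · exact absurd (hf.add_odd hg) (Nat.not_even_iff_odd.2 hodd)
    have e : f ^ 2 + g ^ 2 = a + 2 * g ^ 2 := by rw [ha]; ring
    rw [e] at h
    rcases Nat.even_or_odd a with h' | h'
    · exfalso
      exact Nat.not_even_iff_odd.2 h (h'.add (even_two_mul _))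
    · exact h'
  have e : f ^ 2 + g ^ 2 = 2 * g ^ 2 + a := by rw [ha]; ring
  rw [e, Nat.coprime_add_self_right]
  exact Nat.Coprime.mul_right ha2 hag

theorem fr2 (key : KeyStmt) : Fr2Stmt := by
  intro f g x y z hg hc hodd hfg hx hy hz hle heq
  have hfbig : 10 ^ 12 * g ^ 12 ≤ f := by rw [← mul_pow]; exact hfg
  have hg12 : 1 ≤ g ^ 12 := Nat.one_le_pow _ _ hg
  have hgg12 : g ≤ g ^ 12 := Nat.le_self_pow (by norm_num) g
  have hf12 : 10 ^ 12 ≤ f := by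
    calc 10 ^ 12 = 10 ^ 12 * 1 := by ring
      _ ≤ 10 ^ 12 * g ^ 12 := Nat.mul_le_mul_left _ hg12
      _ ≤ f := hfbig
  have hgf : 10 * g ≤ f := by
    calc 10 * g ≤ 10 ^ 12 * g ^ 12 := Nat.mul_le_mul (by norm_num) hgg12
      _ ≤ f := hfbig
  have hf : 0 < f := by omega
  have hgf' : g < f := by omega
  have hsq : 2 * g ^ 2 ≤ f ^ 2 := by
    calc 2 * g ^ 2 ≤ (10 * g) ^ 2 := by nlinarith
      _ ≤ f ^ 2 := Nat.pow_le_pow_left hgf 2
  have hcop := cop_AC f g hgf' hc hodd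
  obtain ⟨A, hA⟩ : ∃ A, A = f ^ 2 - g ^ 2 := ⟨_, rfl⟩
  obtain ⟨C, hC⟩ : ∃ C, C = f ^ 2 + g ^ 2 := ⟨_, rfl⟩
  obtain ⟨B, hB⟩ : ∃ B, B = 2 * f * g := ⟨_, rfl⟩
  rw [← hA, ← hC, ← hB] at heq
  rw [← hC, ← hB] at hle
  rw [← hA, ← hC] at hcop
  have hAg : A + g ^ 2 = f ^ 2 := by omega
  have hAf : f ^ 2 ≤ 2 * A := by omega
  have hAC : A + 2 * g ^ 2 = C := by omega
  have hg2 : 0 < g ^ 2 := by positivity
  have hApos : 0 < A := by
    have : 0 < f ^ 2 := by positivity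
    omega
  have hCpos : 0 < C := by omega
  have hBpos : 0 < B := by rw [hB]; positivity
  have hAbig : 128 < A := by
    have : 10 ^ 12 * 10 ^ 12 ≤ f * f := Nat.mul_le_mul hf12 hf12
    have h2 : f * f = f ^ 2 := by ring
    omega
  -- x < z
  have hxz : x < z := by
    by_contra hcon
    push Not at hcon
    have h1 : A ^ z ≤ C ^ z := Nat.pow_le_pow_left (by omega) z
    have h2 : C ^ z ≤ C ^ x := Nat.pow_le_pow_right hCpos hcon
    have h3 : 0 < B ^ y := by positivity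
    omega
  -- y < 2z
  have hy2z : y < 2 * z := by
    have h1 : f ^ y ≤ B ^ y := Nat.pow_le_pow_left (by rw [hB]; nlinarith) y
    have h2 : B ^ y < A ^ z := by
      have : 0 < C ^ x := by positivity
      omega
    have h3 : A ^ z ≤ (f ^ 2) ^ z := Nat.pow_le_pow_left (by omega) z
    have h4 : f ^ y < f ^ (2 * z) := by rw [pow_mul]; omega
    exact (Nat.pow_lt_pow_iff_right (by omega)).1 h4
  -- 7 z ≤ 4 y
  have hB7 : B ^ 7 ≤ A ^ 4 := by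
    have h1 : 16 * B ^ 7 ≤ 16 * A ^ 4 := by
      calc 16 * B ^ 7 = f ^ 7 * (2048 * g ^ 7) := by rw [hB]; ring
        _ ≤ f ^ 7 * f := by
            refine Nat.mul_le_mul_left _ ?_
            have h7 : g ^ 7 ≤ g ^ 12 := Nat.pow_le_pow_right hg (by norm_num)
            omega
        _ = (f ^ 2) ^ 4 := by ring
        _ ≤ (2 * A) ^ 4 := Nat.pow_le_pow_left hAf 4
        _ = 16 * A ^ 4 := by ring
    omega
  have h7 : 7 * z ≤ 4 * y := by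
    by_contra hcon
    push Not at hcon
    have h1 : A ^ z ≤ 2 * B ^ y := by omega
    have h2 : A ^ (4 * y + 1) ≤ 128 * A ^ (4 * y) := by
      calc A ^ (4 * y + 1) ≤ A ^ (7 * z) := Nat.pow_le_pow_right hApos (by omega)
        _ = (A ^ z) ^ 7 := by rw [← pow_mul]; congr 1; ring
        _ ≤ (2 * B ^ y) ^ 7 := Nat.pow_le_pow_left h1 7
        _ = 128 * (B ^ 7) ^ y := by rw [mul_pow, ← pow_mul, ← pow_mul, mul_comm y 7]; norm_num
        _ ≤ 128 * (A ^ 4) ^ y := Nat.mul_le_mul_left _ (Nat.pow_le_pow_left hB7 y)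
        _ = 128 * A ^ (4 * y) := by rw [← pow_mul]
    have h3 : A ^ (4 * y) * A ≤ A ^ (4 * y) * 128 := by
      rw [← pow_succ]; rw [mul_comm (A ^ (4 * y)) 128]; exact h2
    have h4 : A ≤ 128 := Nat.le_of_mul_le_mul_left h3 (by positivity)
    omega
  obtain ⟨u, hu⟩ : ∃ u, y + u = 2 * z := ⟨2 * z - y, by omega⟩
  obtain ⟨v, hv⟩ : ∃ v, y = z + v := ⟨y - z, by omega⟩
  have hu1 : 1 ≤ u := by omega
  have h4u : 4 * u ≤ z := by omega
  have hAZ : (A : ℤ) + (g : ℤ) ^ 2 = (f : ℤ) ^ 2 := by exact_mod_cast hAg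
  have hCZ : (C : ℤ) = (f : ℤ) ^ 2 + (g : ℤ) ^ 2 := by rw [hC]; push_cast; ring
  have hBZ : (B : ℤ) = 2 * f * g := by rw [hB]; push_cast; ring
  have hsumZ : (A : ℤ) + C = 2 * (f : ℤ) ^ 2 := by rw [hCZ]; linarith
  have heqZ : (C : ℤ) ^ x + (B : ℤ) ^ y = (A : ℤ) ^ z := by exact_mod_cast heq
  refine key (A : ℤ) (C : ℤ) ((f : ℤ) ^ u) ((2 : ℤ) ^ v * (g : ℤ) ^ y) (-1) z x u (Or.inr rfl)
    (by exact_mod_cast hApos) (by exact_mod_cast hCpos) (Nat.isCoprime_iff_coprime.2 hcop)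
    (by positivity) (by positivity) hxz hu1 h4u ?_ ?_ ?_ ?_ ?_
  · rw [hsumZ]
    calc (f : ℤ) ^ u * (A : ℤ) ^ z + -1 * ((f : ℤ) ^ u * (C : ℤ) ^ x)
        = (f : ℤ) ^ u * ((A : ℤ) ^ z - (C : ℤ) ^ x) := by ring
      _ = (f : ℤ) ^ u * (B : ℤ) ^ y := by rw [← heqZ]; ring
      _ = (f : ℤ) ^ u * (2 * f * g) ^ y := by rw [hBZ]
      _ = (f : ℤ) ^ (y + u) * (2 ^ y * (g : ℤ) ^ y) := by rw [pow_add]; ring
      _ = (f : ℤ) ^ (2 * z) * (2 ^ (z + v) * (g : ℤ) ^ y) := by rw [hu, ← hv]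
      _ = 2 ^ v * (g : ℤ) ^ y * (2 * (f : ℤ) ^ 2) ^ z := by
          rw [pow_add, mul_pow, ← pow_mul]; ring
  · rw [hsumZ, ← pow_mul, mul_comm u 2, pow_mul]
    refine pow_le_pow_left₀ (by positivity) ?_ u
    have : (0 : ℤ) ≤ (f : ℤ) ^ 2 := by positivity
    linarith
  · rw [hsumZ]
    have h1 : |(A : ℤ) - C| = 2 * (g : ℤ) ^ 2 := by
      have : (A : ℤ) - C = -(2 * (g : ℤ) ^ 2) := by rw [hCZ]; linarith
      rw [this, abs_neg, abs_of_nonneg (by positivity)]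
    rw [h1]
    have h2 : 10 ^ 12 * g ^ 12 * (10 ^ 12 * g ^ 12) ≤ f * f := Nat.mul_le_mul hfbig hfbig
    have h3 : (10 : ℤ) ^ 12 * (g : ℤ) ^ 12 * (10 ^ 12 * (g : ℤ) ^ 12) ≤ (f : ℤ) * f := by
      exact_mod_cast h2
    have h4 : (0 : ℤ) ≤ (g : ℤ) ^ 24 := by positivity
    calc (2 * (g : ℤ) ^ 2) ^ 12 = 4096 * (g : ℤ) ^ 24 := by ring
      _ ≤ 10 ^ 24 * (g : ℤ) ^ 24 := by nlinarith
      _ = (10 : ℤ) ^ 12 * (g : ℤ) ^ 12 * (10 ^ 12 * (g : ℤ) ^ 12) := by ring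
      _ ≤ (f : ℤ) * f := h3
      _ ≤ 2 * (f : ℤ) ^ 2 := by nlinarith [sq_nonneg (f : ℤ)]
  · intro h
    have h1 : (A : ℤ) = (C : ℤ) := h
    have : A = C := by exact_mod_cast h1
    omega
  · rw [hsumZ]
    have h1 : 10 ^ 12 * 10 ^ 12 ≤ f * f := Nat.mul_le_mul hf12 hf12
    have h2 : (10 : ℤ) ^ 12 * 10 ^ 12 ≤ (f : ℤ) * f := by exact_mod_cast h1
    calc (81 : ℤ) ^ 12 ≤ 10 ^ 12 * 10 ^ 12 := by norm_num
      _ ≤ (f : ℤ) * f := h2
      _ ≤ 2 * (f : ℤ) ^ 2 := by nlinarith [sq_nonneg (f : ℤ)]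

end Pool.Agent.SHP.H91
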