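import Pool.Agent.SHP.Stmts

/-! Rows NER and FR2 of the squad SHP (MP_d2d93c_nt): the application of KEY near the diagonal and
in the far case `C^x ≤ B^y`. -/

namespace Pool.Agent.SHP.H91

open Pool.Agent.SHP

/-- The core of row NER: `b1 + b2 = s²`, `|b1 - b2| = d²`, the larger exponent on `b1`. -/
theorem ner_core (key : KeyStmt) (s d b1 b2 N n2 z : ℕ) (hb1 : 0 < b1) (hb2 : 0 < b2)
    (hcop : Nat.Coprime b1 b2) (hsum : b1 + b2 = s ^ 2)
    (hdiff : |(b1 : ℤ) - b2| = (d : ℤ) ^ 2) (hd9 : 9 ≤ d) (hds : d ^ 12 ≤ s)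
    (hn : n2 < N) (heq : b1 ^ N + b2 ^ n2 = (s * d) ^ z) : False := by
  have hd1 : 1 ≤ d := by omega
  have hdpos : 0 < d := by omega
  have hds1 : d ≤ s := le_trans (Nat.le_self_pow (by norm_num) d) hds
  have hspos : 0 < s := by omega
  have hNpos : 0 < N := by omega
  -- z < 2N
  have hz : z < 2 * N := by
    by_contra hcon
    push Not at hcon
    have h1 : b1 ^ N + b2 ^ n2 ≤ (s ^ 2) ^ N := by
      calc b1 ^ N + b2 ^ n2 ≤ b1 ^ N + b2 ^ N :=
            Nat.add_le_add_left (Nat.pow_le_pow_right hb2 (by omega)) _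
        _ ≤ (b1 + b2) ^ N := by
            exact pow_add_pow_le (Nat.zero_le _) (Nat.zero_le _) (by omega)
        _ = (s ^ 2) ^ N := by rw [hsum]
    have h2 : (s * d) ^ (2 * N) ≤ (s * d) ^ z :=
      Nat.pow_le_pow_right (Nat.mul_pos hspos hdpos) hcon
    have h3 : (s * d) ^ (2 * N) = (s ^ 2) ^ N * d ^ (2 * N) := by
      rw [mul_pow, pow_mul s 2 N]
    have h4 : 1 < d ^ (2 * N) := Nat.one_lt_pow (by omega) (by omega)
    have h5 : 0 < (s ^ 2) ^ N := by positivity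
    have h6 : (s ^ 2) ^ N * 1 < (s ^ 2) ^ N * d ^ (2 * N) := Nat.mul_lt_mul_of_pos_left h4 h5
    rw [h3] at h2
    rw [heq] at h1
    omega
  obtain ⟨w, hw⟩ : ∃ w, z + w = 2 * N := ⟨2 * N - z, by omega⟩
  have hw1 : 1 ≤ w := by omega
  -- 3 b1 ≥ s²
  have hd2 : 3 * d ^ 2 ≤ s ^ 2 := by
    have h1 : d ^ 12 * d ^ 12 ≤ s * s := Nat.mul_le_mul hds hds
    have h2 : 3 ≤ d ^ 22 := le_trans (by omega : 3 ≤ d) (Nat.le_self_pow (by norm_num) d)
    calc 3 * d ^ 2 ≤ d ^ 22 * d ^ 2 := Nat.mul_le_mul_right _ h2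
      _ = d ^ 12 * d ^ 12 := by ring
      _ ≤ s * s := h1
      _ = s ^ 2 := by ring
  have hdd : (b2 : ℤ) - b1 ≤ (d : ℤ) ^ 2 := by
    rw [← hdiff, abs_sub_comm]; exact le_abs_self _
  have hb1M : s ^ 2 ≤ 3 * b1 := by
    have h1 : (b1 : ℤ) + b2 = (s : ℤ) ^ 2 := by exact_mod_cast hsum
    have h2 : 3 * (d : ℤ) ^ 2 ≤ (s : ℤ) ^ 2 := by exact_mod_cast hd2
    have h3 : (s : ℤ) ^ 2 ≤ 3 * b1 := by linarith
    exact_mod_cast h3
  -- s^w ≤ 3^N d^z
  have hprod : s ^ w * (b1 ^ N + b2 ^ n2) = d ^ z * (s ^ 2) ^ N := by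
    rw [heq, mul_pow, ← pow_mul, ← hw, pow_add]
    ring
  have hsw : s ^ w ≤ 3 ^ N * d ^ z := by
    have h1 : s ^ w * b1 ^ N ≤ d ^ z * (s ^ 2) ^ N := by
      rw [← hprod]; exact Nat.mul_le_mul_left _ (Nat.le_add_right _ _)
    have h2 : (s ^ 2) ^ N ≤ 3 ^ N * b1 ^ N := by
      rw [← mul_pow]; exact Nat.pow_le_pow_left hb1M N
    have h3 : s ^ w * b1 ^ N ≤ (3 ^ N * d ^ z) * b1 ^ N := by
      calc s ^ w * b1 ^ N ≤ d ^ z * (s ^ 2) ^ N := h1
        _ ≤ d ^ z * (3 ^ N * b1 ^ N) := Nat.mul_le_mul_left _ h2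
        _ = (3 ^ N * d ^ z) * b1 ^ N := by ring
    exact Nat.le_of_mul_le_mul_right h3 (by positivity)
  have h13 : 13 * w ≤ 3 * N := by
    have h1 : d ^ (13 * w) ≤ d ^ (3 * N) := by
      calc d ^ (13 * w) = (d ^ 12) ^ w * d ^ w := by rw [← pow_mul, ← pow_add]; congr 1; ring
        _ ≤ s ^ w * d ^ w := Nat.mul_le_mul_right _ (Nat.pow_le_pow_left hds w)
        _ ≤ (3 ^ N * d ^ z) * d ^ w := Nat.mul_le_mul_right _ hsw
        _ = 3 ^ N * d ^ (2 * N) := by rw [← hw, pow_add]; ring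
        _ ≤ d ^ N * d ^ (2 * N) :=
            Nat.mul_le_mul_right _ (Nat.pow_le_pow_left (by omega) N)
        _ = d ^ (3 * N) := by rw [← pow_add]; congr 1; ring
    exact (Nat.pow_le_pow_iff_right (by omega)).1 h1
  have h4w : 4 * w ≤ N := by omega
  -- apply KEY
  have hsumZ : (b1 : ℤ) + b2 = (s : ℤ) ^ 2 := by exact_mod_cast hsum
  refine key (b1 : ℤ) (b2 : ℤ) ((s : ℤ) ^ w) ((d : ℤ) ^ z) 1 N n2 w (Or.inl rfl)
    (by exact_mod_cast hb1) (by exact_mod_cast hb2) (Nat.isCoprime_iff_coprime.2 hcop)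
    (by positivity) (by positivity) hn hw1 h4w ?_ ?_ ?_ ?_ ?_
  · rw [hsumZ]
    have h1 : ((s ^ w * (b1 ^ N + b2 ^ n2) : ℕ) : ℤ) = ((d ^ z * (s ^ 2) ^ N : ℕ) : ℤ) := by
      rw [hprod]
    push_cast at h1
    linarith
  · rw [hsumZ, ← pow_mul, ← pow_mul, mul_comm]
  · rw [hsumZ, hdiff]
    have h1 : d ^ 12 * d ^ 12 ≤ s * s := Nat.mul_le_mul hds hds
    have h2 : (d : ℤ) ^ 12 * (d : ℤ) ^ 12 ≤ (s : ℤ) * s := by exact_mod_cast h1
    calc ((d : ℤ) ^ 2) ^ 12 = (d : ℤ) ^ 12 * (d : ℤ) ^ 12 := by ring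
      _ ≤ (s : ℤ) * s := h2
      _ = (s : ℤ) ^ 2 := by ring
  · intro h
    rw [h, sub_self, abs_zero] at hdiff
    have : (0 : ℤ) < (d : ℤ) ^ 2 := by positivity
    omega
  · rw [hsumZ]
    have h1 : d ^ 12 * d ^ 12 ≤ s * s := Nat.mul_le_mul hds hds
    have h2 : 9 ^ 12 * 9 ^ 12 ≤ d ^ 12 * d ^ 12 :=
      Nat.mul_le_mul (Nat.pow_le_pow_left hd9 12) (Nat.pow_le_pow_left hd9 12)
    have h3 : 9 ^ 12 * 9 ^ 12 ≤ s * s := le_trans h2 h1
    have h4 : (9 : ℤ) ^ 12 * 9 ^ 12 ≤ (s : ℤ) * s := by exact_mod_cast h3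
    calc (81 : ℤ) ^ 12 = 9 ^ 12 * 9 ^ 12 := by norm_num
      _ ≤ (s : ℤ) * s := h4
      _ = (s : ℤ) ^ 2 := by ring

/-- `gcd(f² + g², 2fg) = 1`. -/
theorem cop_CB (f g : ℕ) (hc : Nat.Coprime f g) (hodd : Odd (f + g)) :
    Nat.Coprime (f ^ 2 + g ^ 2) (2 * f * g) := by
  have h2 : Nat.Coprime (f ^ 2 + g ^ 2) 2 := by
    rw [Nat.coprime_comm, Nat.coprime_two_left]
    rcases Nat.even_or_odd f with hf | hf <;> rcases Nat.even_or_odd g with hg | hg
    · exact absurd (hf.add hg) (Nat.not_even_iff_odd.2 hodd)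
    · exact (hf.pow_of_ne_zero (by norm_num)).add_odd (hg.pow)
    · exact (hf.pow).add_even (hg.pow_of_ne_zero (by norm_num))
    · exact absurd (hf.add_odd hg) (Nat.not_even_iff_odd.2 hodd)
  have hf : Nat.Coprime (f ^ 2 + g ^ 2) f := by
    have : Nat.Coprime (g ^ 2) f := (Nat.Coprime.pow_left 2 hc.symm)
    rw [pow_two f]
    rw [Nat.coprime_comm]
    rw [Nat.coprime_mul_left_add_right]
    exact this.symm
  have hg : Nat.Coprime (f ^ 2 + g ^ 2) g := by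
    have : Nat.Coprime (f ^ 2) g := (Nat.Coprime.pow_left 2 hc)
    rw [pow_two g]
    rw [Nat.coprime_comm]
    rw [Nat.coprime_add_mul_left_right]
    exact this.symm
  exact Nat.Coprime.mul_right (Nat.Coprime.mul_right h2 hf) hg

theorem ner (key : KeyStmt) : NerStmt := by
  intro f g x y z hg hgf hc hodd hd9 hds hx hy hz heq
  obtain ⟨d, hd⟩ : ∃ d, f = g + d := ⟨f - g, by omega⟩
  have hfg : f - g = d := by omega
  rw [hfg] at hd9 hds
  have hA : f ^ 2 - g ^ 2 = (f + g) * d := by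
    rw [Nat.sq_sub_sq, hfg]
  rw [hA] at heq
  have hCB : (f ^ 2 + g ^ 2) + 2 * f * g = (f + g) ^ 2 := by ring
  have hdiff : ((f ^ 2 + g ^ 2 : ℕ) : ℤ) - ((2 * f * g : ℕ) : ℤ) = (d : ℤ) ^ 2 := by
    rw [hd]; push_cast; ring
  have hcop := cop_CB f g hc hodd
  have hf : 0 < f := by omega
  have hCpos : 0 < f ^ 2 + g ^ 2 := by positivity
  have hBpos : 0 < 2 * f * g := by positivity
  rcases lt_trichotomy x y with h | h | h
  · -- y > x
    refine ner_core key (f + g) d (2 * f * g) (f ^ 2 + g ^ 2) y x z hBpos hCpos hcop.symm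
      (by rw [add_comm]; exact hCB) ?_ hd9 hds h (by rw [add_comm]; exact heq)
    rw [abs_sub_comm, hdiff, abs_of_nonneg (by positivity)]
  · -- x = y
    subst h
    have hdB : Nat.Coprime d (2 * f * g) := by
      have h2 : Nat.Coprime d 2 := by
        rw [Nat.coprime_comm, Nat.coprime_two_left]
        rw [hd] at hodd
        rcases Nat.even_or_odd d with h | h
        · exfalso
          have : Even (g + d + g) := by
            have := (h.add (even_two_mul g)); 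
            have e : d + 2 * g = g + d + g := by ring
            rwa [e] at this
          exact Nat.not_even_iff_odd.2 hodd this
        · exact h
      have hdg : Nat.Coprime d g := by
        rw [hd] at hc
        have := (Nat.coprime_add_self_left (m := d) (n := g)).1 (by rw [add_comm]; exact hc)
        exact this
      have hdf : Nat.Coprime d f := by
        rw [hd, Nat.coprime_add_self_right]
        exact hdg
      exact Nat.Coprime.mul_right (Nat.Coprime.mul_right h2 hdf) hdg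
    have hmod : (f ^ 2 + g ^ 2) ≡ 2 * f * g [MOD d] := by
      rw [← Int.natCast_modEq_iff]
      refine (Int.modEq_iff_dvd.2 ?_).symm
      rw [hdiff]
      exact Dvd.intro_left _ (by rw [pow_two])
    have h1 : (f ^ 2 + g ^ 2) ^ x + (2 * f * g) ^ x ≡ (2 * f * g) ^ x + (2 * f * g) ^ x [MOD d] :=
      Nat.ModEq.add_right _ (hmod.pow x)
    have h2 : d ∣ (f ^ 2 + g ^ 2) ^ x + (2 * f * g) ^ x := by
      rw [heq]
      exact dvd_pow (Dvd.intro_left _ rfl) (by omega)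
    have h3 : d ∣ (2 * f * g) ^ x + (2 * f * g) ^ x := (Nat.ModEq.dvd_iff h1 dvd_rfl).1 h2
    have h4 : d ∣ 2 * (2 * f * g) ^ x := by rw [two_mul]; exact h3
    have h5 : Nat.Coprime d (2 * (2 * f * g) ^ x) := by
      refine Nat.Coprime.mul_right ?_ (hdB.pow_right x)
      exact Nat.Coprime.coprime_dvd_right (Dvd.intro (f * g) (by ring)) hdB
    have h6 : d = 1 := Nat.Coprime.eq_one_of_dvd h5 h4
    omega
  · -- x > y
    refine ner_core key (f + g) d (f ^ 2 + g ^ 2) (2 * f * g) x y z hCpos hBpos hcop hCB ?_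
      hd9 hds h heq
    rw [hdiff, abs_of_nonneg (by positivity)]

end Pool.Agent.SHP.H91
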